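import Pool.Agent.Helper60.HC.GoalsP
import Pool.Agent.Helper29.BL.EV
import Pool.Agent.Helper29.BL.PS

/-!
# Project HC (MP_a41896_nt), packet CHB: trivial upper bound of `cH`
-/

set_option autoImplicit false

open MvPolynomial

namespace Pool.Agent.Helper16.HC.CHB

open WeierstrassCurve Height Height.AdmissibleAbsValues
open Pool.Agent.Helper29.BL Pool.Agent.Helper60.HC
open Pool.Agent.Helper5.UN (cH)

noncomputable section

section basic

variable {K : Type} [Field K] {σ : Type} [Fintype σ]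

theorem one_le_prodMv (v : AbsoluteValue K ℝ) (x : σ → K) : 1 ≤ ∏ i, Mv v (x i) := by
  calc (1 : ℝ) = ∏ _i : σ, 1 := by simp
    _ ≤ ∏ i, Mv v (x i) := Finset.prod_le_prod (fun _ _ => zero_le_one) fun i _ => one_le_Mv v (x i)

theorem prodMv_pos (v : AbsoluteValue K ℝ) (x : σ → K) : 0 < ∏ i, Mv v (x i) :=
  lt_of_lt_of_le one_pos (one_le_prodMv v x)

theorem log_prodMv (v : AbsoluteValue K ℝ) (x : σ → K) :
    Real.log (∏ i, Mv v (x i)) = ∑ i, Real.log (Mv v (x i)) := by
  rw [Real.log_prod fun i _ => (Mv_pos v (x i)).ne']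

variable [AdmissibleAbsValues K]

/-- evaluation bound -/
theorem evb (N : ℕ) (p : MvPolynomial σ K) (hp : ∀ i, degreeOf i p ≤ N) :
    ∃ c : AbsoluteValue K ℝ → ℝ, FS c ∧ (∀ v, 0 ≤ c v) ∧
      ∀ v (x : σ → K), v (eval x p) ≤ Real.exp (c v) * (∏ i, Mv v (x i)) ^ N := by
  classical
  refine ⟨fun v => Real.log (cst v (p.support.card + 1)) +
    ∑ m ∈ p.support, Real.posLog (v (coeff m p)), ?_, ?_, ?_⟩
  · exact (FS_log_cst _).add (FS.sum _ fun m _ => FS_posLog _)
  · intro v
    have h1 : (1 : ℝ) ≤ (p.support.card : ℝ) + 1 := by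
      have : (0 : ℝ) ≤ (p.support.card : ℝ) := Nat.cast_nonneg _
      linarith
    exact add_nonneg (Real.log_nonneg (one_le_cst v h1))
      (Finset.sum_nonneg fun _ _ => Real.posLog_nonneg)
  · intro v x
    have h1 : (1 : ℝ) ≤ (p.support.card : ℝ) + 1 := by
      have : (0 : ℝ) ≤ (p.support.card : ℝ) := Nat.cast_nonneg _
      linarith
    rw [Real.exp_add, Real.exp_log (cst_pos v h1), eval_eq']
    have hM := prodMv_pos v x
    rw [mul_assoc]
    refine abv_sum_le v _ _ (by positivity) (fun m hm => ?_) (by linarith)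
    rw [map_mul]
    refine mul_le_mul ?_ ?_ (v.nonneg _) (Real.exp_pos _).le
    · have h2 : Real.posLog (v (coeff m p)) ≤ ∑ m ∈ p.support, Real.posLog (v (coeff m p)) :=
        Finset.single_le_sum (f := fun m => Real.posLog (v (coeff m p)))
          (fun _ _ => Real.posLog_nonneg) hm
      have h3 : v (coeff m p) ≤ Real.exp (Real.posLog (v (coeff m p))) := by
        rcases eq_or_lt_of_le (v.nonneg (coeff m p)) with h0 | h0
        · rw [← h0]; exact (Real.exp_pos _).le
        · conv_lhs => rw [← Real.exp_log h0]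
          exact Real.exp_le_exp.2 (le_max_right _ _)
      exact h3.trans (Real.exp_le_exp.2 h2)
    · rw [map_prod, ← Finset.prod_pow]
      refine Finset.prod_le_prod (fun i _ => v.nonneg _) fun i _ => ?_
      rw [map_pow]
      have h4 : m i ≤ N := by
        have h5 := hp i
        rw [degreeOf_eq_sup] at h5
        exact (Finset.le_sup (f := fun m : σ →₀ ℕ => m i) hm).trans h5
      calc v (x i) ^ m i ≤ Mv v (x i) ^ m i :=
            pow_le_pow_left₀ (v.nonneg _) (le_max_right _ _) _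
        _ ≤ Mv v (x i) ^ N := pow_le_pow_right₀ (one_le_Mv v _) h4

end basic

theorem t : S_CHB := by
  intro K _ _ σ _ D J _ f hf
  classical
  choose c hc hc0 hcb using fun j => evb (K := K) D (f j) (hf j)
  have hFc : FS (fun v => ∑ j, c j v) := FS.sum _ fun j _ => hc j
  have hc0' : ∀ v, 0 ≤ ∑ j, c j v := fun v => Finset.sum_nonneg fun j _ => hc0 j v
  refine ⟨PS (fun v => ∑ j, c j v), PS_nonneg hFc hc0', ?_⟩
  rintro x ⟨j0, hj0⟩
  have hbd : ∀ v : AbsoluteValue K ℝ, BddAbove (Set.range fun j => v (eval x (f j))) :=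
    fun v => (Set.finite_range _).bddAbove
  have hle : ∀ v : AbsoluteValue K ℝ, v (eval x (f j0)) ≤ ⨆ j, v (eval x (f j)) :=
    fun v => le_ciSup (hbd v) j0
  have hv0 : ∀ v : AbsoluteValue K ℝ, 0 < v (eval x (f j0)) := fun v => v.pos hj0
  have hS : ∀ v : AbsoluteValue K ℝ, 0 < ⨆ j, v (eval x (f j)) :=
    fun v => (hv0 v).trans_le (hle v)
  have hM : ∀ v : AbsoluteValue K ℝ, 0 < ∏ i, Mv v (x i) := fun v => prodMv_pos v x
  have hA : ∀ v : AbsoluteValue K ℝ, 0 < (∏ i, Mv v (x i)) ^ D := fun v => pow_pos (hM v) D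
  -- the bound
  have hFb : FS (fun v => ((D : ℝ) * ∑ i, Real.log (Mv v (x i)) + ∑ j, c j v) -
      Real.log (v (eval x (f j0)))) :=
    (((FS.sum _ fun i _ => FS_log_Mv (x i)).const_mul _).add hFc).sub (FS_log hj0)
  have hb : ∀ v : AbsoluteValue K ℝ,
      Real.posLog ((∏ i, Mv v (x i)) ^ D / ⨆ j, v (eval x (f j))) ≤
      ((D : ℝ) * ∑ i, Real.log (Mv v (x i)) + ∑ j, c j v) - Real.log (v (eval x (f j0))) := by
    intro v
    have h1 : Real.log ((∏ i, Mv v (x i)) ^ D) = (D : ℝ) * ∑ i, Real.log (Mv v (x i)) := by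
      rw [Real.log_pow, log_prodMv]
    have h2 : Real.log (v (eval x (f j0))) ≤ ∑ j, c j v + Real.log ((∏ i, Mv v (x i)) ^ D) := by
      have h3 := Real.log_le_log (hv0 v) (hcb j0 v x)
      rw [Real.log_mul (Real.exp_pos _).ne' (hA v).ne', Real.log_exp] at h3
      have h4 : c j0 v ≤ ∑ j, c j v :=
        Finset.single_le_sum (f := fun j => c j v) (fun j _ => hc0 j v) (Finset.mem_univ j0)
      linarith
    have h5 : Real.log (v (eval x (f j0))) ≤ Real.log (⨆ j, v (eval x (f j))) :=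
      Real.log_le_log (hv0 v) (hle v)
    rw [Real.posLog]
    refine max_le ?_ ?_
    · rw [← h1]
      linarith
    · rw [Real.log_div (hA v).ne' (hS v).ne', h1]
      have := hc0' v
      linarith
  have hFp : FS (fun v => Real.posLog ((∏ i, Mv v (x i)) ^ D / ⨆ j, v (eval x (f j)))) := by
    refine hFb.mono fun v _ h => ?_
    exact le_antisymm ((hb v).trans h.le) Real.posLog_nonneg
  have hlog : ∀ v : AbsoluteValue K ℝ, Real.log (rhs f D v x) =
      - Real.posLog ((∏ i, Mv v (x i)) ^ D / ⨆ j, v (eval x (f j))) := by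
    intro v
    have h1 : Real.log ((∏ i, Mv v (x i)) ^ D / ⨆ j, v (eval x (f j))) =
        - Real.log ((⨆ j, v (eval x (f j))) / (∏ i, Mv v (x i)) ^ D) := by
      rw [← Real.log_inv, inv_div]
    have h2 : 0 < (⨆ j, v (eval x (f j))) / (∏ i, Mv v (x i)) ^ D := div_pos (hS v) (hA v)
    rw [Real.posLog, h1, rhs]
    rcases le_total 1 ((⨆ j, v (eval x (f j))) / (∏ i, Mv v (x i)) ^ D) with h | h
    · rw [min_eq_left h, Real.log_one, max_eq_left, neg_zero]
      have := Real.log_nonneg h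
      linarith
    · rw [min_eq_right h, max_eq_right, neg_neg]
      have := Real.log_nonpos h2.le h
      linarith
  refine ⟨?_, ?_, ?_, ?_⟩
  · have h1 := PS_mono hFp hFb hb
    rw [PS_sub (((FS.sum _ fun i _ => FS_log_Mv (x i)).const_mul _).add hFc) (FS_log hj0),
      PS_log hj0, PS_add ((FS.sum _ fun i _ => FS_log_Mv (x i)).const_mul _) hFc, PS_const_mul,
      PS_sum _ (fun i _ => FS_log_Mv (x i)), sub_zero] at h1
    simp only [PS_log_Mv] at h1
    exact h1
  · simp only [hlog]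
    exact hFp.neg
  · simp only [hlog]
    rw [PS_neg]
    rfl
  · intro v
    refine ⟨lt_min one_pos (div_pos (hS v) (hA v)), min_le_left _ _⟩

end

end Pool.Agent.Helper16.HC.CHB
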