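import Pool.Agent.Helper60.HC.GoalsP
import Pool.Agent.Helper29.BL.PS

/-!
# Project HC (MP_a41896_nt), packet EMPH: the empty centre
-/

set_option autoImplicit false

open MvPolynomial

namespace Pool.Agent.Helper16.HC.EMPH

open WeierstrassCurve Height Height.AdmissibleAbsValues
open Pool.Agent.Helper29.BL Pool.Agent.Helper60.HC Pool.Agent.Helper42.SG
open Pool.Agent.Helper5.UN (cH)

noncomputable section

theorem eq_C_of_degreeOf {K : Type} [Field K] {σ : Type} (P : MvPolynomial σ K)
    (h : ∀ i, P.degreeOf i = 0) : P = C (coeff 0 P) := by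
  classical
  ext m
  rw [coeff_C]
  split_ifs with h0
  · rw [h0]
  · by_contra hc
    have hm : m ∈ P.support := mem_support_iff.2 hc
    apply h0
    ext i
    have h1 := h i
    rw [degreeOf_eq_sup] at h1
    have h2 : m i ≤ 0 := by
      rw [← h1]
      exact Finset.le_sup (f := fun m : σ →₀ ℕ => m i) hm
    simpa using (Nat.le_zero.1 h2).symm

theorem t (h : S_ELOC2) : S_EMPH := by
  intro K _ _ σ _ _ s D ι _ f hf hc hs
  obtain ⟨E, B, hE, hB, hP⟩ := h K σ s D ι f hf hc
  obtain ⟨P, hP0, -, hPJ, hPv⟩ := hP ∅ (by simpa using hs)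
  have hPC := eq_C_of_degreeOf P fun i => hPJ i (Finset.notMem_empty i)
  set a := coeff 0 P with ha
  have ha0 : a ≠ 0 := by
    intro h0
    apply hP0
    rw [hPC, h0, map_zero]
  have hFg : FS (fun v => Real.log (B v) + Real.posLog (v a⁻¹)) := hB.fin.add (FS_posLog _)
  refine ⟨PS (fun v => Real.log (B v) + Real.posLog (v a⁻¹)), fun x => ?_⟩
  have hb : ∀ v : AbsoluteValue K ℝ,
      Real.posLog ((∏ i, Mv v (x i)) ^ D / ⨆ j, v (eval x (f j))) ≤
        Real.log (B v) + Real.posLog (v a⁻¹) := by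
    intro v
    have h1 := hPv v x
    rw [Finset.prod_empty, one_pow, mul_one, hPC, eval_C] at h1
    have hA : 0 < (∏ i, Mv v (x i)) ^ D :=
      pow_pos (Finset.prod_pos fun i _ => Mv_pos v (x i)) D
    have hva : 0 < v a := v.pos ha0
    have hBv : 0 < B v := lt_of_lt_of_le one_pos (hB.one_le v)
    have hS : 0 < ⨆ j, v (eval x (f j)) := by
      by_contra hn
      push Not at hn
      have h2 : 0 < v a * (∏ i, Mv v (x i)) ^ D := mul_pos hva hA
      have h3 : B v * (⨆ j, v (eval x (f j))) ≤ 0 := mul_nonpos_of_nonneg_of_nonpos hBv.le hn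
      linarith
    have h4 : (∏ i, Mv v (x i)) ^ D / (⨆ j, v (eval x (f j))) ≤ B v * v a⁻¹ := by
      rw [map_inv₀, div_le_iff₀ hS]
      have : B v * (v a)⁻¹ * (⨆ j, v (eval x (f j))) =
          (B v * ⨆ j, v (eval x (f j))) / v a := by
        field_simp
      rw [this, le_div_iff₀ hva, mul_comm]
      exact h1
    calc Real.posLog ((∏ i, Mv v (x i)) ^ D / ⨆ j, v (eval x (f j)))
        ≤ Real.posLog (B v * v a⁻¹) := Real.posLog_le_posLog (div_nonneg hA.le hS.le) h4
      _ ≤ Real.posLog (B v) + Real.posLog (v a⁻¹) := Real.posLog_mul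
      _ = Real.log (B v) + Real.posLog (v a⁻¹) := by
        rw [Real.posLog, max_eq_right (Real.log_nonneg (hB.one_le v))]
  have hFp : FS (fun v => Real.posLog ((∏ i, Mv v (x i)) ^ D / ⨆ j, v (eval x (f j)))) := by
    refine hFg.mono fun v _ h => ?_
    exact le_antisymm ((hb v).trans h.le) Real.posLog_nonneg
  exact PS_mono hFp hFg hb

end

end Pool.Agent.Helper16.HC.EMPH
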